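import Mathlib
import Pool.Agent.Lib.MP_49901c_pr.DenseNeg

/-!
# Sandpile groups of random graphs: the characterisation of all `p`-universal sequences
-/

namespace Pool.Agent.Results.MP_49901c_pr.UniversalSequences

open Filter Topology Pool.Agent.Lib.MP_49901c_pr

theorem sparse_side {q : ℕ → ℝ} (hq : Tendsto q atTop (𝓝 1)) :
    Tendsto (fun n : ℕ => n * q n - Real.log n) atTop atTop := by
  have hlogdiv : Tendsto (fun n : ℕ => Real.log n / n) atTop (𝓝 0) := by
    have h3 : Tendsto (fun x : ℝ => Real.log x / x) atTop (𝓝 0) :=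
      Real.isLittleO_log_id_atTop.tendsto_div_nhds_zero
    exact h3.comp tendsto_natCast_atTop_atTop
  have h1 : Tendsto (fun n : ℕ => (n : ℝ) * (1 / 4)) atTop atTop :=
    tendsto_natCast_atTop_atTop.atTop_mul_const (by norm_num)
  refine tendsto_atTop_mono' _ ?_ h1
  filter_upwards [hlogdiv.eventually_lt_const (show (0 : ℝ) < 1 / 4 by norm_num),
    hq.eventually_const_lt (show (1 / 2 : ℝ) < 1 by norm_num), eventually_ge_atTop 1]
    with n a1 a2 a3
  have b1 : (0 : ℝ) < n := by exact_mod_cast a3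
  rw [div_lt_iff₀ b1] at a1
  nlinarith

theorem dense_side {p : ℕ} (hp : p.Prime) {q : ℕ → ℝ} (hq : Tendsto q atTop (𝓝 0)) :
    Tendsto (fun n : ℕ => jmin p n * (n * (1 - q n)) - Real.log n -
      emax p n * Real.log (Real.log n)) atTop atTop := by
  obtain ⟨K, hK⟩ : ∃ K : ℕ, ∀ n, emax p n ≤ K := by
    refine ⟨(Finset.range p).sup (emax p), fun n => ?_⟩
    have : emax p n = emax p (n % p) := emax_congr (natCast_mod_eq p n).symm
    rw [this]
    exact Finset.le_sup (f := emax p) (Finset.mem_range.mpr (Nat.mod_lt _ hp.pos))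
  have hlogdiv : Tendsto (fun n : ℕ => (1 + (K : ℝ)) * (Real.log n / n)) atTop (𝓝 0) := by
    have h3 : Tendsto (fun x : ℝ => Real.log x / x) atTop (𝓝 0) :=
      Real.isLittleO_log_id_atTop.tendsto_div_nhds_zero
    have h4 := (h3.comp tendsto_natCast_atTop_atTop).const_mul (1 + (K : ℝ))
    rw [mul_zero] at h4
    exact h4
  have h1 : Tendsto (fun n : ℕ => (n : ℝ) * (1 / 4)) atTop atTop :=
    tendsto_natCast_atTop_atTop.atTop_mul_const (by norm_num)
  refine tendsto_atTop_mono' _ ?_ h1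
  filter_upwards [hlogdiv.eventually_lt_const (show (0 : ℝ) < 1 / 4 by norm_num),
    hq.eventually_lt_const (show (0 : ℝ) < 1 / 2 by norm_num), eventually_ge_atTop 3]
    with n a1 a2 a3
  have b0 : (3 : ℝ) ≤ n := by exact_mod_cast a3
  have b1 : (0 : ℝ) < n := by linarith
  have b2 : (1 : ℝ) ≤ Real.log n := by
    rw [Real.le_log_iff_exp_le (by positivity)]
    have : Real.exp 1 < 2.7182818286 := Real.exp_one_lt_d9
    linarith
  have b3 : Real.log (Real.log n) ≤ Real.log n := by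
    have := Real.log_le_sub_one_of_pos (show 0 < Real.log n by linarith)
    linarith
  have b4 : 0 ≤ Real.log (Real.log n) := Real.log_nonneg b2
  have b5 : (emax p n : ℝ) ≤ K := by exact_mod_cast hK n
  have b6 : (emax p n : ℝ) * Real.log (Real.log n) ≤ K * Real.log n :=
    mul_le_mul b5 b3 b4 (Nat.cast_nonneg _)
  have b7 : (1 : ℝ) ≤ jmin p n := by exact_mod_cast one_le_jmin hp n
  have b8 : (n : ℝ) / 2 ≤ jmin p n * (n * (1 - q n)) := by
    have c1 : (n : ℝ) / 2 ≤ n * (1 - q n) := by nlinarith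
    have c2 : 0 ≤ (n : ℝ) * (1 - q n) := by linarith [half_pos b1]
    nlinarith
  rw [← mul_div_assoc, div_lt_iff₀ b1] at a1
  nlinarith

/-- The characterisation of all `p`-universal sequences. -/
theorem result (p : ℕ) (hp : p.Prime) (q : ℕ → ℝ) (h0 : ∀ n, 0 < q n) (h1 : ∀ n, q n < 1) :
    -- (i) all sequences
    (IsUniversal p q ↔ Tendsto (fun n : ℕ => n * q n - Real.log n) atTop atTop ∧
      Tendsto (fun n : ℕ => jmin p n * (n * (1 - q n)) - Real.log n -
        emax p n * Real.log (Real.log n)) atTop atTop) ∧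
    -- (ii) sparse sequences
    (Tendsto q atTop (𝓝 0) →
      (IsUniversal p q ↔ Tendsto (fun n : ℕ => n * q n - Real.log n) atTop atTop)) ∧
    -- (iii) dense sequences
    (Tendsto q atTop (𝓝 1) →
      (IsUniversal p q ↔ Tendsto (fun n : ℕ => jmin p n * (n * (1 - q n)) - Real.log n -
        emax p n * Real.log (Real.log n)) atTop atTop)) ∧
    -- (iv) the constants depend only on the residue modulo `p`
    (∀ a b : ℕ, a ≡ b [MOD p] → jmin p a = jmin p b ∧ emax p a = emax p b) ∧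
    -- (v) they are attained, `jmin` is minimal, and `emax` is maximal for `jmin`
    (∀ a : ℕ, IsObstruction p a (jmin p a) (emax p a) ∧ emax p a + 2 ≤ 2 * jmin p a ∧
      ∀ j e, IsObstruction p a j e → jmin p a ≤ j ∧ (j = jmin p a → e ≤ emax p a)) ∧
    -- (vi) explicit values
    (∀ a : ℕ, a ≡ 0 [MOD p] → jmin p a = 1 ∧ emax p a = 0) ∧
    (∀ a : ℕ, a ≡ 1 [MOD p] → jmin p a = 2 ∧ emax p a = 2) ∧
    (2 < p → ∀ a : ℕ, a ≡ 2 [MOD p] → jmin p a = 2 ∧ emax p a = 1) ∧
    (∀ a : ℕ, 3 ≤ a % p → 3 ≤ jmin p a ∧ jmin p a ≤ a % p) := by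
  have key := isUniversal_iff hp h0 h1
  have hcast : ∀ a b : ℕ, a ≡ b [MOD p] → (a : ZMod p) = (b : ZMod p) := fun a b hab =>
    (ZMod.natCast_eq_natCast_iff a b p).mpr hab
  refine ⟨key, fun hq => ?_, fun hq => ?_, fun a b hab => ?_, fun a => ?_, fun a ha => ?_,
    fun a ha => jmin_emax_one hp ha, fun hp2 a ha => jmin_emax_two hp hp2 ha,
    fun a ha => jmin_other hp ha⟩
  · rw [key]
    exact ⟨fun h => h.1, fun h => ⟨h, dense_side hp hq⟩⟩
  · rw [key]
    exact ⟨fun h => h.2, fun h => ⟨sparse_side hq, h⟩⟩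
  · exact ⟨jmin_congr (hcast a b hab), emax_congr (hcast a b hab)⟩
  · refine ⟨emax_spec hp a, IsObstruction.edges_le (emax_spec hp a), fun j e h => ⟨jmin_le h, ?_⟩⟩
    rintro rfl
    exact le_emax h
  · exact jmin_emax_zero hp ((Nat.modEq_zero_iff_dvd).mp ha)

end Pool.Agent.Results.MP_49901c_pr.UniversalSequences
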